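import Pool.Agent.Y994.KW.Stm

/-!
# Project KW: crossings of different parities intersect

`t_EXCL : S_EXCL`.  The parity of the number of steps of the vertical path through the tiles to the
left of a tile is constant along the horizontal path.
-/

set_option autoImplicit false

namespace Y32.KW

open Y994.KW

/-- coordinates of an open diagonal -/
theorem ob_coord {ε : ℤ} {F : Finset Pt} {x y : Pt} (h : OB ε F x y) :
    ∃ m n : ℤ, (m, n) ∈ F ∧ (x.1 + x.2 - ε) % 2 = 0 ∧ (y.1 + y.2 - ε) % 2 = 0 ∧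
      ((x.1 = m ∧ y.1 = m + 1) ∨ (x.1 = m + 1 ∧ y.1 = m)) ∧
      ((x.2 = n ∧ y.2 = n + 1) ∨ (x.2 = n + 1 ∧ y.2 = n)) := by
  obtain ⟨x1, x2⟩ := x
  obtain ⟨y1, y2⟩ := y
  obtain ⟨h1, h2, h3⟩ := h
  unfold Pty at h1 h2
  simp only [Prod.mk.injEq, Prod.mk_add_mk] at h1 h2 h3 ⊢
  rcases h3 with ⟨⟨ha, hb⟩, hc⟩ | ⟨⟨ha, hb⟩, hc⟩ | ⟨⟨ha, hb⟩, hc⟩ | ⟨⟨ha, hb⟩, hc⟩
  · exact ⟨x1, x2, hc, h1, h2, by omega, by omega⟩
  · exact ⟨y1, y2, hc, h1, h2, by omega, by omega⟩
  · exact ⟨y1, x2, hc, h1, h2, by omega, by omega⟩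
  · exact ⟨x1, y2, hc, h1, h2, by omega, by omega⟩

theorem tl_coord {w h : ℕ} {m n : ℤ} (hh : (m, n) ∈ Tl w h) : 0 ≤ m ∧ m < w ∧ 0 ≤ n ∧ n < h := by
  unfold Tl at hh
  rw [Finset.mem_image] at hh
  obtain ⟨p, hp, hq⟩ := hh
  rw [Finset.mem_product, Finset.mem_range, Finset.mem_range] at hp
  simp only [Prod.mk.injEq] at hq
  omega

/-- the counting function of a vertical path -/
theorem count {w h : ℕ} {ε : ℤ} {G : Finset Pt} (hG : G ⊆ Tl w h) {a b : Pt}
    (hp : Relation.ReflTransGen (OB (ε + 1) G) a b) :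
    ∃ C : ℤ → ℤ → ℤ, (∀ j t : ℤ, j ≤ 0 → C j t % 2 = 0) ∧
      (∀ j t : ℤ, (j, t) ∉ G → (C (j + 1) t - C j t) % 2 = 0) ∧
      (∀ j t : ℤ, (w : ℤ) ≤ j →
        (C j t - ((if t < b.2 then 1 else 0) + (if t < a.2 then 1 else 0))) % 2 = 0) ∧
      (∀ j t : ℤ, (j + t - ε) % 2 = 0 →
        (C j t - C j (t - 1) - ((if t = b.2 ∧ b.1 < j then 1 else 0)
          + (if t = a.2 ∧ a.1 < j then 1 else 0))) % 2 = 0) := by
  induction hp with
  | refl =>
    refine ⟨fun _ _ => 0, ?_, ?_, ?_, ?_⟩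
    · intro j t _; rfl
    · intro j t _; rfl
    · intro j t _; split_ifs <;> rfl
    · intro j t _; split_ifs <;> rfl
  | @tail b c _ hs ih =>
    obtain ⟨C, hR, hP, hS, hQ⟩ := ih
    obtain ⟨m, n, hmn, h1, h2, h3, h4⟩ := ob_coord hs
    have hT := tl_coord (hG hmn)
    refine ⟨fun j t => C j t + (if t = n ∧ m < j then 1 else 0), ?_, ?_, ?_, ?_⟩
    · intro j t hj
      have := hR j t hj
      dsimp only
      split_ifs with h5
      · omega
      · omega
    · intro j t hj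
      have := hP j t hj
      have hne : ¬ (t = n ∧ m = j) := by
        rintro ⟨rfl, rfl⟩
        exact hj hmn
      dsimp only
      split_ifs with h5 h6 h6
      · omega
      · omega
      · omega
      · omega
    · intro j t hj
      have := hS j t hj
      dsimp only
      split_ifs at this ⊢ <;> omega
    · intro j t hj
      have := hQ j t hj
      dsimp only
      split_ifs at this ⊢ <;> omega

/-- **crossings of different parities intersect** -/
theorem t_EXCL : S_EXCL := by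
  rintro w h ε F G hw hh hF hG hd ⟨x, y, hx, hy, hB⟩ ⟨a, b, ha, hb, hV⟩
  obtain ⟨C, hR, hP, hS, hQ⟩ := count hG hV
  have key : ∀ z : Pt, Relation.ReflTransGen (OB ε F) x z →
      (z = x ∨ (0 ≤ z.2 ∧ z.2 ≤ h)) ∧
      ∀ t : ℤ, (t = z.2 ∨ t = z.2 - 1) → 0 ≤ t → t < h → C z.1 t % 2 = 0 := by
    intro z hz
    induction hz with
    | refl =>
      refine ⟨Or.inl rfl, fun t _ _ _ => hR _ _ (by omega)⟩
    | @tail z z' _ hs ih =>
      obtain ⟨-, ih⟩ := ih
      obtain ⟨m, n, hmn, h1, h2, h3, h4⟩ := ob_coord hs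
      have hT := tl_coord (hF hmn)
      have hnG : (m, n) ∉ G := fun hg => (Finset.disjoint_left.mp hd) hmn hg
      have hP' := hP m n hnG
      have hz : C z.1 n % 2 = 0 := ih n (by omega) hT.2.2.1 hT.2.2.2
      have hz' : C z'.1 n % 2 = 0 := by
        rcases h3 with ⟨h5, h6⟩ | ⟨h5, h6⟩
        · rw [h5] at hz
          rw [h6]
          omega
        · rw [h5] at hz
          rw [h6]
          omega
      refine ⟨Or.inr (by omega), ?_⟩
      intro t ht h0 hth
      by_cases htn : t = n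
      · rw [htn]; exact hz'
      · have hq := hQ z'.1 z'.2 h2
        rw [ha, hb] at hq
        have hc1 : ¬ (z'.2 = (h : ℤ) ∧ b.1 < z'.1) := by omega
        have hc2 : ¬ (z'.2 = 0 ∧ a.1 < z'.1) := by omega
        rw [if_neg hc1, if_neg hc2] at hq
        rcases ht with ht | ht
        · have : n = z'.2 - 1 := by omega
          rw [ht]
          rw [this] at hz'
          omega
        · have : n = z'.2 := by omega
          rw [ht]
          rw [this] at hz'
          omega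
  obtain ⟨h1, h2⟩ := key y hB
  have hyx : y ≠ x := by
    rintro rfl
    omega
  have h1 := h1.resolve_left hyx
  have h3 : ∃ t : ℤ, (t = y.2 ∨ t = y.2 - 1) ∧ 0 ≤ t ∧ t < h := by
    by_cases h4 : y.2 < h
    · exact ⟨y.2, Or.inl rfl, h1.1, h4⟩
    · exact ⟨y.2 - 1, Or.inr rfl, by omega, by omega⟩
  obtain ⟨t, ht, h0, hth⟩ := h3
  have h4 := h2 t ht h0 hth
  have h5 := hS y.1 t (by omega)
  rw [ha, hb, if_pos hth, if_neg (by omega)] at h5
  omega

end Y32.KW
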